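import Pool.Agent.H94.LH.Stmts

/-! LH, row MULT (helper23). -/

set_option linter.all false

namespace Pool.LH

open Finset

theorem mult_thm : S_MULT := by
  intro g G P e hg hG hlt
  have hg0 : 0 < g := hg.pos
  have hgz : (0 : ℤ) < g := by exact_mod_cast hg0
  -- residues and boxes
  set r : ℕ → ℕ → ℤ := fun j p => ((j : ℤ) * e p) % g with hr
  have hr0 : ∀ j p, 0 ≤ r j p := fun j p => Int.emod_nonneg _ hgz.ne'
  have hr1 : ∀ j p, r j p < g := fun j p => Int.emod_lt_of_pos _ hgz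
  set b : ℕ → ({x // x ∈ P} → ℕ) := fun j p => ((G : ℤ) * r j p / g).toNat with hb
  have hbox0 : ∀ j p, 0 ≤ (G : ℤ) * r j p / g := fun j p =>
    Int.ediv_nonneg (mul_nonneg (by positivity) (hr0 j p)) hgz.le
  have hmaps : ∀ j ∈ range g, b j ∈ Fintype.piFinset (fun _ : {x // x ∈ P} => range G) := by
    intro j _
    rw [Fintype.mem_piFinset]
    intro p
    rw [mem_range]
    have h1 : (G : ℤ) * r j p / g < G := by
      rw [Int.ediv_lt_iff_lt_mul hgz]
      have hG' : (0 : ℤ) < G := by exact_mod_cast hG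
      exact mul_lt_mul_of_pos_left (hr1 j p) hG'
    have h2 := hbox0 j p
    simp only [hb]
    omega
  have hcard : (Fintype.piFinset (fun _ : {x // x ∈ P} => range G)).card < (range g).card := by
    rw [Fintype.card_piFinset]
    simpa using hlt
  obtain ⟨j, hj, j', hj', hne, heq⟩ := Finset.exists_ne_map_eq_of_card_lt_of_maps_to hcard hmaps
  -- order them
  obtain ⟨j, j', hjg, hlt', heq⟩ : ∃ j j' : ℕ, j < g ∧ j' < j ∧ b j = b j' := by
    rcases lt_or_gt_of_ne hne with h | h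
    · exact ⟨j', j, mem_range.1 hj', h, heq.symm⟩
    · exact ⟨j, j', mem_range.1 hj, h, heq⟩
  set m : ℕ := j - j' with hm
  have hm0 : 0 < m := by omega
  have hmg : m < g := by omega
  have hcop : Nat.Coprime m g := by
    rw [Nat.coprime_comm]
    exact (Nat.Prime.coprime_iff_not_dvd hg).2 (Nat.not_dvd_of_pos_of_lt hm0 hmg)
  haveI : Fact g.Prime := ⟨hg⟩
  haveI : NeZero g := ⟨hg0.ne'⟩
  set z : ℕ := ((m : ZMod g)⁻¹).val with hz
  have hmz : (m : ZMod g) ≠ 0 := by
    intro h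
    rw [ZMod.natCast_eq_zero_iff] at h
    exact Nat.not_dvd_of_pos_of_lt hm0 hmg h
  have hzv : (z : ZMod g) = (m : ZMod g)⁻¹ := ZMod.natCast_zmod_val _
  have hz0 : 1 ≤ z := by
    rcases Nat.eq_zero_or_pos z with h | h
    · exfalso
      rw [h] at hzv
      simp only [Nat.cast_zero] at hzv
      exact hmz (inv_eq_zero.1 hzv.symm)
    · exact h
  have hzg : z < g := ZMod.val_lt _
  set σ : ℕ → ℤ := fun p => r j p - r j' p with hσ
  have hdvd : ∀ p, (g : ℤ) ∣ e p - z * σ p := by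
    intro p
    rw [← ZMod.intCast_zmod_eq_zero_iff_dvd]
    have h1 : ((σ p : ℤ) : ZMod g) = (m : ZMod g) * (e p : ZMod g) := by
      have hjm : (j : ZMod g) - (j' : ZMod g) = (m : ZMod g) := by
        rw [hm, Nat.cast_sub hlt'.le]
      simp only [hσ, hr]
      push_cast
      rw [← hjm]
      have e1 : ∀ a : ℤ, (((a % (g : ℤ)) : ℤ) : ZMod g) = (a : ZMod g) := fun a => by simp
      have e2 := e1 ((j : ℤ) * e p)
      have e3 := e1 ((j' : ℤ) * e p)
      push_cast at e2 e3 ⊢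
      rw [e2, e3]
      ring
    push_cast
    rw [h1, hzv, ← mul_assoc, inv_mul_cancel₀ hmz, one_mul, sub_self]
  refine ⟨z, σ, fun p => (e p - z * σ p) / g, hz0, hzg, fun p hp => ⟨?_, ?_⟩⟩
  · have := Int.mul_ediv_cancel' (hdvd p)
    linarith
  · have h1 := congrFun heq ⟨p, hp⟩
    simp only [hb] at h1
    have h2 : (G : ℤ) * r j p / g = (G : ℤ) * r j' p / g := by
      have a1 := hbox0 j p
      have a2 := hbox0 j' p
      omega
    have h3 := Int.emod_add_mul_ediv ((G : ℤ) * r j p) g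
    have h4 := Int.emod_add_mul_ediv ((G : ℤ) * r j' p) g
    have h5 := Int.emod_nonneg ((G : ℤ) * r j p) hgz.ne'
    have h6 := Int.emod_nonneg ((G : ℤ) * r j' p) hgz.ne'
    have h7 := Int.emod_lt_of_pos ((G : ℤ) * r j p) hgz
    have h8 := Int.emod_lt_of_pos ((G : ℤ) * r j' p) hgz
    rw [h2] at h3
    have h9 : |(G : ℤ) * σ p| ≤ g := by
      rw [abs_le]
      simp only [hσ]
      constructor <;> nlinarith
    rw [abs_mul, abs_of_nonneg (by positivity : (0 : ℤ) ≤ (G : ℤ))] at h9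
    exact h9

end Pool.LH
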